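import Pool.Agent.Lib.MP_99e3ed_co.H54.Graph
import Pool.Agent.Lib.MP_99e3ed_co.Final

/-!
# The case `d = 2`
-/

set_option autoImplicit false

open Finset Polynomial
open Classical

namespace Pool.Agent.Lib.MP_99e3ed_co.H54

lemma coeff_Z {V : Type*} [Fintype V] (G : SimpleGraph V) (k : ℕ) :
    (Z G univ).coeff k = (ic G k : ℤ) := by
  unfold Z ic
  rw [Polynomial.finsetSum_coeff]
  simp only [coeff_X_pow]
  rw [← Finset.sum_filter, Finset.sum_const, nsmul_eq_mul, mul_one]
  congr 2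
  ext I
  rw [mem_ind, Finset.mem_filter, Finset.mem_filter, Finset.mem_powerset]
  constructor
  · rintro ⟨⟨_, h1⟩, h2⟩
    exact ⟨h1, h2.symm⟩
  · rintro ⟨h1, h2⟩
    exact ⟨⟨Finset.subset_univ _, h1⟩, h2.symm⟩

/-- The labelling of the `i`-th four-cycle of `H`. -/
def lab (m : ℕ) (i : Fin m) (j : ℕ) : Fin m × Bool × Fin 2 :=
  (i, (j % 2 = 1 : Bool), (if j < 2 then 0 else 1 : Fin 2))

lemma lab_cyc (m : ℕ) (i : Fin m) : CycLab (kddUnion 2 m) 4 (lab m i) := by
  refine ⟨by norm_num, ?_, ?_⟩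
  · intro a ha b hb hab
    simp only [lab, Prod.mk.injEq, true_and] at hab
    interval_cases a <;> interval_cases b <;> simp_all
  · intro a ha b hb
    rw [kdd_adj]
    simp only [lab, true_and]
    interval_cases a <;> interval_cases b <;> simp

lemma lab_image (m : ℕ) (i : Fin m) (x : Fin m × Bool × Fin 2) :
    x ∈ (Finset.range 4).image (lab m i) ↔ x.1 = i := by
  rw [Finset.mem_image]
  constructor
  · rintro ⟨j, _, rfl⟩
    rfl
  · rintro rfl
    obtain ⟨i, b, c⟩ := x
    cases b <;> fin_cases c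
    · exact ⟨0, by simp, by simp [lab]⟩
    · exact ⟨2, by simp, by simp [lab]⟩
    · exact ⟨1, by simp, by simp [lab]⟩
    · exact ⟨3, by simp, by simp [lab]⟩

lemma Z_union' {V : Type*} (G : SimpleGraph V) (U W T : Finset V)
    (hT : ∀ x, x ∈ T ↔ x ∈ U ∨ x ∈ W) (hd : ∀ x ∈ U, x ∉ W)
    (hadj : ∀ a ∈ U, ∀ b ∈ W, ¬ G.Adj a b) : Z G T = Z G U * Z G W := by
  have h : T = U ∪ W := by
    ext x
    rw [hT, Finset.mem_union]
  rw [h]
  exact Z_union G U.card U W rfl (Finset.disjoint_left.2 fun x hx => hd x hx) hadj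

lemma Z_cycle' {V : Type*} (G : SimpleGraph V) {l : ℕ} {v : ℕ → V} (h : CycLab G l v)
    (T : Finset V) (hT : ∀ x, x ∈ T ↔ ∃ i, i < l ∧ v i = x) : Z G T = Lu l := by
  have h1 : T = (Finset.range l).image v := by
    ext x
    rw [hT, Finset.mem_image]
    simp only [Finset.mem_range]
  rw [h1]
  exact Z_cycle G h

lemma Z_H_aux (m : ℕ) (T : Finset (Fin m)) :
    Z (kddUnion 2 m) (univ.filter (fun x => x.1 ∈ T)) = Lu 4 ^ T.card := by
  induction T using Finset.induction_on with
  | empty =>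
    have : (univ.filter (fun x : Fin m × Bool × Fin 2 => x.1 ∈ (∅ : Finset (Fin m)))) = ∅ := by
      ext x
      simp
    rw [this, Z_empty, Finset.card_empty, pow_zero]
  | insert i T hi ih =>
    have h3 : Z (kddUnion 2 m) ((Finset.range 4).image (lab m i)) = Lu 4 := by
      apply Z_cycle' _ (lab_cyc m i)
      intro x
      rw [Finset.mem_image]
      simp only [Finset.mem_range]
    rw [Finset.card_insert_of_notMem hi, pow_succ', ← ih, ← h3]
    apply Z_union'
    · intro x
      rw [lab_image, Finset.mem_filter, Finset.mem_filter, Finset.mem_insert]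
      simp only [Finset.mem_univ, true_and]
    · intro x hx hx'
      rw [lab_image] at hx
      rw [Finset.mem_filter, hx] at hx'
      exact hi hx'.2
    · intro a ha b hb hab
      rw [lab_image] at ha
      rw [kdd_adj] at hab
      rw [Finset.mem_filter, ← hab.1, ha] at hb
      exact hi hb.2

lemma Z_H (m : ℕ) : Z (kddUnion 2 m) univ = Lu 4 ^ m := by
  have := Z_H_aux m univ
  simpa using this

/-- Likelihood ratio order between a 2-regular graph and `m` disjoint four-cycles. -/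
theorem lr_two_regular (m : ℕ) (V : Type*) [Fintype V] (hV : Fintype.card V = 4 * m)
    (G : SimpleGraph V) (hG : G.IsRegularOfDegree 2) (i j : ℕ) (hij : i ≤ j) :
    ic G j * ic (kddUnion 2 m) i ≤ ic G i * ic (kddUnion 2 m) j := by
  obtain ⟨S, hS3, hSsum, hSZ⟩ := exists_multiset hG _ (univ : Finset V) rfl (by simp)
  have hsum : S.sum = 4 * m := by rw [hSsum, Finset.card_univ, hV]
  have h := reduce m S hS3 hsum i j hij
  rw [← hSZ, ← Z_H m] at h
  simp only [add_zero, coeff_Z] at h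
  exact_mod_cast h

/-- **The case `d = 2`.** -/
theorem two_regular (m : ℕ) (V : Type*) [Fintype V] (hV : Fintype.card V = 4 * m)
    (G : SimpleGraph V) (hG : G.IsRegularOfDegree 2) (k : ℕ) (hkα : k ≤ G.indepNum) :
    expNbhd (kddUnion 2 m) k ≤ expNbhd G k := by
  have hGpos : 0 < ic G k := by
    unfold ic
    rw [Finset.card_pos]
    obtain ⟨I, hI⟩ := G.exists_isNIndepSet_indepNum
    obtain ⟨J, hJI, hJ⟩ := Finset.exists_subset_card_eq (s := I) (n := k)
      (by rw [hI.card_eq]; exact hkα)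
    refine ⟨J, ?_⟩
    rw [mem_ind]
    exact ⟨(ind_iff.1 hI.isIndepSet).mono hJI, hJ⟩
  have hH0 : 0 < ic (kddUnion 2 m) 0 := kdd_pos 2 m 0 (Nat.zero_le _)
  have hHpos : 0 < ic (kddUnion 2 m) k := by
    have h := lr_two_regular m V hV G hG 0 k (Nat.zero_le _)
    by_contra hcon
    have h0 : ic (kddUnion 2 m) k = 0 := by omega
    rw [h0, mul_zero] at h
    have := Nat.mul_pos hGpos hH0
    omega
  have key := lr_two_regular m V hV G hG k (k + 1) (Nat.le_succ k)
  have hcard : Fintype.card (Fin m × Bool × Fin 2) = 4 * m := by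
    rw [kdd_card]
  rw [expNbhd_eq G hV hGpos, expNbhd_eq (kddUnion 2 m) hcard hHpos]
  have a1 : (0 : ℚ) < ic G k := by exact_mod_cast hGpos
  have a2 : (0 : ℚ) < ic (kddUnion 2 m) k := by exact_mod_cast hHpos
  have key' : (ic G (k + 1) : ℚ) * ic (kddUnion 2 m) k ≤
      ic G k * ic (kddUnion 2 m) (k + 1) := by exact_mod_cast key
  have h5 : ((k : ℚ) + 1) * (ic G (k + 1) : ℚ) / ic G k ≤
      ((k : ℚ) + 1) * (ic (kddUnion 2 m) (k + 1) : ℚ) / ic (kddUnion 2 m) k := by
    rw [div_le_div_iff₀ a1 a2, mul_assoc, mul_assoc]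
    refine mul_le_mul_of_nonneg_left ?_ (by positivity)
    linarith
  linarith

end Pool.Agent.Lib.MP_99e3ed_co.H54
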