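import Pool.Agent.Lib.MP_99e3ed_co.H54.Reduce

/-!
# Independence polynomials of 2-regular graphs
-/

set_option autoImplicit false

open Finset Polynomial
open Classical

namespace Pool.Agent.Lib.MP_99e3ed_co.H54

variable {V : Type*}

/-- no edge inside `I` -/
def Ind (G : SimpleGraph V) (I : Finset V) : Prop := ∀ a ∈ I, ∀ b ∈ I, ¬ G.Adj a b

/-- Independence polynomial of the subgraph induced on `U`. -/
noncomputable def Z (G : SimpleGraph V) (U : Finset V) : ℤ[X] :=
  ∑ I ∈ U.powerset.filter (fun I => Ind G I), X ^ I.card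

lemma Z_empty (G : SimpleGraph V) : Z G ∅ = 1 := by
  unfold Z
  rw [Finset.powerset_empty, Finset.filter_true_of_mem]
  · simp
  · intro I hI
    rw [Finset.mem_singleton] at hI
    subst hI
    intro a ha
    simp at ha

/-- Deletion recursion. -/
lemma Z_insert (G : SimpleGraph V) {U : Finset V} {v : V} (hv : v ∉ U) :
    Z G (insert v U) = Z G U + X * Z G (U.filter (fun w => ¬ G.Adj v w)) := by
  unfold Z
  rw [Finset.powerset_insert, Finset.filter_union, Finset.sum_union]
  · congr 1
    rw [Finset.mul_sum]
    have : (U.powerset.image (insert v)).filter (fun I => Ind G I) =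
        ((U.filter (fun w => ¬ G.Adj v w)).powerset.filter (fun I => Ind G I)).image (insert v) := by
      ext I
      simp only [Finset.mem_filter, Finset.mem_image, Finset.mem_powerset]
      constructor
      · rintro ⟨⟨J, hJ, rfl⟩, hI⟩
        refine ⟨J, ⟨?_, ?_⟩, rfl⟩
        · intro w hw
          rw [Finset.mem_filter]
          exact ⟨hJ hw, hI v (Finset.mem_insert_self _ _) w (Finset.mem_insert_of_mem hw)⟩
        · intro a ha b hb
          exact hI a (Finset.mem_insert_of_mem ha) b (Finset.mem_insert_of_mem hb)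
      · rintro ⟨J, ⟨hJ, hI⟩, rfl⟩
        refine ⟨⟨J, fun w hw => (Finset.mem_filter.1 (hJ hw)).1, rfl⟩, ?_⟩
        intro a ha b hb
        rw [Finset.mem_insert] at ha hb
        rcases ha with rfl | ha <;> rcases hb with rfl | hb
        · exact G.irrefl
        · exact (Finset.mem_filter.1 (hJ hb)).2
        · intro h
          exact (Finset.mem_filter.1 (hJ ha)).2 h.symm
        · exact hI a ha b hb
    rw [this, Finset.sum_image]
    · refine Finset.sum_congr rfl fun J hJ => ?_
      rw [Finset.mem_filter, Finset.mem_powerset] at hJ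
      have : v ∉ J := fun h => hv (Finset.mem_filter.1 (hJ.1 h)).1
      rw [Finset.card_insert_of_notMem this, pow_succ']
    · intro J hJ K hK hJK
      rw [Finset.mem_coe, Finset.mem_filter, Finset.mem_powerset] at hJ hK
      have h1 : v ∉ J := fun h => hv (Finset.mem_filter.1 (hJ.1 h)).1
      have h2 : v ∉ K := fun h => hv (Finset.mem_filter.1 (hK.1 h)).1
      have := congrArg (fun S => Finset.erase S v) hJK
      simpa [Finset.erase_insert h1, Finset.erase_insert h2] using this
  · rw [Finset.disjoint_left]
    intro I hI hI'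
    rw [Finset.mem_filter, Finset.mem_powerset] at hI
    rw [Finset.mem_filter, Finset.mem_image] at hI'
    obtain ⟨⟨J, _, rfl⟩, _⟩ := hI'
    exact hv (hI.1 (Finset.mem_insert_self _ _))

/-- The independence polynomial is multiplicative. -/
lemma Z_union (G : SimpleGraph V) : ∀ (n : ℕ) (U W : Finset V), U.card = n → Disjoint U W →
    (∀ a ∈ U, ∀ b ∈ W, ¬ G.Adj a b) → Z G (U ∪ W) = Z G U * Z G W := by
  intro n
  induction n using Nat.strong_induction_on with
  | _ n ih =>
    intro U W hn hd hadj
    rcases U.eq_empty_or_nonempty with rfl | ⟨v, hv⟩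
    · rw [Z_empty, Finset.empty_union, one_mul]
    · have hU : U = insert v (U.erase v) := (Finset.insert_erase hv).symm
      have hvW : v ∉ W := fun h => (Finset.disjoint_left.1 hd) hv h
      set U' := U.erase v with hU'
      have hvU' : v ∉ U' := Finset.notMem_erase v U
      have hcard : U'.card < n := by
        rw [← hn]; exact Finset.card_erase_lt_of_mem hv
      have hsub : U' ⊆ U := Finset.erase_subset _ _
      have hUW : U ∪ W = insert v (U' ∪ W) := by
        rw [hU, Finset.insert_union]
      have hnot : v ∉ U' ∪ W := by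
        rw [Finset.mem_union]
        rintro (h | h)
        · exact hvU' h
        · exact hvW h
      rw [hUW, Z_insert G hnot, ih U'.card hcard U' W rfl
        (Finset.disjoint_of_subset_left hsub hd) (fun a ha b hb => hadj a (hsub ha) b hb)]
      have hf : (U' ∪ W).filter (fun w => ¬ G.Adj v w) =
          U'.filter (fun w => ¬ G.Adj v w) ∪ W := by
        rw [Finset.filter_union]
        congr 1
        apply Finset.filter_true_of_mem
        intro w hw
        exact hadj v hv w hw
      have hsub2 : U'.filter (fun w => ¬ G.Adj v w) ⊆ U' := Finset.filter_subset _ _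
      rw [hf, ih (U'.filter (fun w => ¬ G.Adj v w)).card
        (lt_of_le_of_lt (Finset.card_le_card hsub2) hcard) _ W rfl
        (Finset.disjoint_of_subset_left (hsub2.trans hsub) hd)
        (fun a ha b hb => hadj a (hsub (hsub2 ha)) b hb)]
      conv_rhs => rw [hU, Z_insert G hvU']
      ring

/-- The path polynomials. -/
noncomputable def Fp : ℕ → ℤ[X]
  | 0 => 1
  | 1 => 1 + X
  | (n + 2) => Fp (n + 1) + X * Fp n

lemma Fp_add_two (n : ℕ) : Fp (n + 2) = Fp (n + 1) + X * Fp n := by rw [Fp]

lemma Lu_eq_Fp (n : ℕ) : Lu (n + 3) = Fp (n + 2) + X * Fp n := by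
  induction n using Nat.strong_induction_on with
  | _ n ih =>
    match n with
    | 0 => simp only [zero_add, Lu3, Fp]; ring
    | 1 => simp only [Nat.reduceAdd, Lu4, Fp]; ring
    | (n + 2) =>
      have h1 := ih n (by omega)
      have h2 := ih (n + 1) (by omega)
      rw [show n + 2 + 3 = (n + 3) + 2 by ring, Lu_add_two (n + 3),
        Fp_add_two (n + 2), show n + 3 + 1 = n + 1 + 3 by ring]
      rw [show n + 1 + 2 = n + 2 + 1 by ring] at h2
      linear_combination h2 + X * h1 - X * (Fp_add_two n)

/-- A cyclic labelling of a set of vertices. -/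
structure CycLab (G : SimpleGraph V) (l : ℕ) (v : ℕ → V) : Prop where
  three : 3 ≤ l
  inj : ∀ i < l, ∀ j < l, v i = v j → i = j
  adj : ∀ i < l, ∀ j < l, G.Adj (v i) (v j) ↔
    (i + 1 = j ∨ j + 1 = i ∨ (i = 0 ∧ j + 1 = l) ∨ (j = 0 ∧ i + 1 = l))

lemma Z_path (G : SimpleGraph V) {l : ℕ} {v : ℕ → V} (h : CycLab G l v) (b : ℕ) : ∀ a,
    (1 ≤ a ∧ a + b ≤ l) ∨ (a + b + 1 ≤ l) →
    Z G ((Finset.Ico a (a + b)).image v) = Fp b := by
  induction b using Nat.strong_induction_on with
  | _ b ih =>
    intro a hab
    match b with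
    | 0 =>
      simp [Z_empty, Fp]
    | 1 =>
      have : (Finset.Ico a (a + 1)).image v = insert (v a) ∅ := by
        simp
      rw [this, Z_insert G (Finset.notMem_empty _)]
      simp [Z_empty, Fp]
    | (b + 2) =>
      have h0 := h.three
      have e1 : (Finset.Ico a (a + (b + 2))).image v =
          insert (v (a + b + 1)) ((Finset.Ico a (a + (b + 1))).image v) := by
        rw [← Finset.image_insert]
        congr 1
        ext x
        simp only [Finset.mem_Ico, Finset.mem_insert]
        omega
      have e2 : v (a + b + 1) ∉ (Finset.Ico a (a + (b + 1))).image v := by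
        rw [Finset.mem_image]
        rintro ⟨i, hi, hi'⟩
        rw [Finset.mem_Ico] at hi
        have := h.inj i (by omega) (a + b + 1) (by omega) hi'
        omega
      have e3 : ((Finset.Ico a (a + (b + 1))).image v).filter
          (fun w => ¬ G.Adj (v (a + b + 1)) w) = (Finset.Ico a (a + b)).image v := by
        ext w
        simp only [Finset.mem_filter, Finset.mem_image, Finset.mem_Ico]
        constructor
        · rintro ⟨⟨i, hi, rfl⟩, hadj⟩
          refine ⟨i, ?_, rfl⟩
          rw [h.adj _ (by omega) _ (by omega)] at hadj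
          omega
        · rintro ⟨i, hi, rfl⟩
          refine ⟨⟨i, by omega, rfl⟩, ?_⟩
          rw [h.adj _ (by omega) _ (by omega)]
          omega
      rw [e1, Z_insert G e2, e3, ih (b + 1) (by omega) a (by omega), ih b (by omega) a (by omega),
        Fp_add_two]

lemma Z_cycle (G : SimpleGraph V) {l : ℕ} {v : ℕ → V} (h : CycLab G l v) :
    Z G ((Finset.range l).image v) = Lu l := by
  have h0 := h.three
  obtain ⟨n, rfl⟩ : ∃ n, l = n + 3 := ⟨l - 3, by omega⟩
  have e1 : (Finset.range (n + 3)).image v =
      insert (v (n + 2)) ((Finset.Ico 0 (0 + (n + 2))).image v) := by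
    rw [← Finset.image_insert]
    congr 1
    ext x
    simp only [Finset.mem_Ico, Finset.mem_insert, Finset.mem_range]
    omega
  have e2 : v (n + 2) ∉ (Finset.Ico 0 (0 + (n + 2))).image v := by
    rw [Finset.mem_image]
    rintro ⟨i, hi, hi'⟩
    rw [Finset.mem_Ico] at hi
    have := h.inj i (by omega) (n + 2) (by omega) hi'
    omega
  have e3 : ((Finset.Ico 0 (0 + (n + 2))).image v).filter
      (fun w => ¬ G.Adj (v (n + 2)) w) = (Finset.Ico 1 (1 + n)).image v := by
    ext w
    simp only [Finset.mem_filter, Finset.mem_image, Finset.mem_Ico]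
    constructor
    · rintro ⟨⟨i, hi, rfl⟩, hadj⟩
      refine ⟨i, ?_, rfl⟩
      rw [h.adj _ (by omega) _ (by omega)] at hadj
      omega
    · rintro ⟨i, hi, rfl⟩
      refine ⟨⟨i, by omega, rfl⟩, ?_⟩
      rw [h.adj _ (by omega) _ (by omega)]
      omega
  rw [e1, Z_insert G e2, e3, Z_path G h (n + 2) 0 (by omega), Z_path G h n 1 (by omega),
    Lu_eq_Fp]

lemma isCycles_of_regular [Fintype V] {G : SimpleGraph V} (hG : G.IsRegularOfDegree 2) :
    G.IsCycles := by
  intro v _
  have := hG v
  rw [← SimpleGraph.card_neighborSet_eq_degree] at this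
  rw [Set.ncard_eq_toFinset_card', Set.toFinset_card]
  convert this

/-- The vertex set of a component of a 2-regular graph is cyclically labelled. -/
lemma exists_lab [Fintype V] {G : SimpleGraph V} (hG : G.IsRegularOfDegree 2) (u : V) :
    ∃ (l : ℕ) (v : ℕ → V), CycLab G l v ∧
      ∀ w, w ∈ (Finset.range l).image v ↔ G.Reachable u w := by
  have hcyc := isCycles_of_regular hG
  have hne : (G.neighborSet u).Nonempty := by
    have h1 := hG u
    rw [← SimpleGraph.card_neighborFinset_eq_degree] at h1
    have h2 : (G.neighborFinset u).Nonempty := by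
      rw [← Finset.card_pos, h1]; norm_num
    obtain ⟨w, hw⟩ := h2
    rw [SimpleGraph.mem_neighborFinset] at hw
    exact ⟨w, hw⟩
  obtain ⟨p, hp, hpv⟩ := hcyc.exists_cycle_toSubgraph_verts_eq_connectedComponentSupp
    (c := G.connectedComponentMk u) (v := u) rfl hne
  have hl := hp.three_le_length
  have hinj : ∀ i < p.length, ∀ j < p.length, p.getVert i = p.getVert j → i = j := by
    intro i hi j hj hij
    apply hp.getVert_injOn' (by rw [Set.mem_ofPred_eq]; omega) (by rw [Set.mem_ofPred_eq]; omega) hij
  have hlast : p.getVert p.length = p.getVert 0 := by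
    rw [SimpleGraph.Walk.getVert_length, SimpleGraph.Walk.getVert_zero]
  have hmem : ∀ w, w ∈ (Finset.range p.length).image p.getVert ↔ w ∈ p.support := by
    intro w
    rw [Finset.mem_image, SimpleGraph.Walk.mem_support_iff_exists_getVert]
    constructor
    · rintro ⟨i, hi, rfl⟩
      rw [Finset.mem_range] at hi
      exact ⟨i, rfl, hi.le⟩
    · rintro ⟨i, rfl, hi⟩
      rcases Nat.lt_or_ge i p.length with h | h
      · exact ⟨i, Finset.mem_range.2 h, rfl⟩
      · have : i = p.length := by omega
        subst this
        exact ⟨0, Finset.mem_range.2 (by omega), hlast.symm⟩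
  refine ⟨p.length, p.getVert, ⟨hl, hinj, ?_⟩, ?_⟩
  · intro i hi j hj
    have hvi : p.getVert i ∈ p.toSubgraph.verts := by
      rw [SimpleGraph.Walk.mem_verts_toSubgraph, ← hmem]
      exact Finset.mem_image_of_mem _ (Finset.mem_range.2 hi)
    rw [← hp.adj_toSubgraph_iff_of_isCycles hcyc hvi, SimpleGraph.Walk.toSubgraph_adj_iff]
    constructor
    · rintro ⟨k, hk, hkl⟩
      rw [Sym2.eq_iff] at hk
      rcases Nat.lt_or_ge (k + 1) p.length with h | h
      · rcases hk with ⟨h1, h2⟩ | ⟨h1, h2⟩
        · have e1 := hinj k hkl i hi h1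
          have e2 := hinj (k + 1) h j hj h2
          omega
        · have e1 := hinj k hkl j hj h1
          have e2 := hinj (k + 1) h i hi h2
          omega
      · have hk1 : k + 1 = p.length := by omega
        rw [hk1, hlast] at hk
        rcases hk with ⟨h1, h2⟩ | ⟨h1, h2⟩
        · have e1 := hinj k hkl i hi h1
          have e2 := hinj 0 (by omega) j hj h2
          omega
        · have e1 := hinj k hkl j hj h1
          have e2 := hinj 0 (by omega) i hi h2
          omega
    · rintro (h | h | ⟨h1, h2⟩ | ⟨h1, h2⟩)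
      · exact ⟨i, by rw [h], hi⟩
      · exact ⟨j, by rw [h, Sym2.eq_swap], hj⟩
      · refine ⟨j, ?_, hj⟩
        rw [h2, hlast, h1, Sym2.eq_swap]
      · refine ⟨i, ?_, hi⟩
        rw [h2, hlast, h1]
  · intro w
    rw [hmem, ← SimpleGraph.Walk.mem_verts_toSubgraph, hpv, SimpleGraph.ConnectedComponent.mem_supp_iff,
      SimpleGraph.ConnectedComponent.eq]
    exact ⟨fun h => h.symm, fun h => h.symm⟩

/-- The independence polynomial of a 2-regular graph is a product of cycle polynomials. -/
lemma exists_multiset [Fintype V] {G : SimpleGraph V} (hG : G.IsRegularOfDegree 2) :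
    ∀ (n : ℕ) (U : Finset V), U.card = n → (∀ a ∈ U, ∀ b, G.Adj a b → b ∈ U) →
      ∃ S : Multiset ℕ, (∀ s ∈ S, 3 ≤ s) ∧ S.sum = U.card ∧ Z G U = PL S := by
  intro n
  induction n using Nat.strong_induction_on with
  | _ n ih =>
    intro U hn hU
    rcases U.eq_empty_or_nonempty with rfl | ⟨u, hu⟩
    · exact ⟨0, by simp, by simp, by rw [Z_empty, PL_zero]⟩
    · obtain ⟨l, v, hlab, hreach⟩ := exists_lab hG u
      set C := (Finset.range l).image v with hC
      have hwalk : ∀ (a w : V) (p : G.Walk a w), a ∈ U → w ∈ U := by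
        intro a w p
        induction p with
        | nil => exact fun h => h
        | cons h _ ih => exact fun ha => ih (hU _ ha _ h)
      have hreachU : ∀ w, G.Reachable u w → w ∈ U := by
        rintro w ⟨p⟩
        exact hwalk u w p hu
      have hCU : C ⊆ U := fun w hw => hreachU w ((hreach w).1 hw)
      have huC : u ∈ C := (hreach u).2 (SimpleGraph.Reachable.refl u)
      have hUC : U = C ∪ U \ C := (Finset.union_sdiff_of_subset hCU).symm
      have hCcard : C.card = l := by
        rw [hC, Finset.card_image_of_injOn, Finset.card_range]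
        intro i hi j hj hij
        rw [Finset.mem_coe, Finset.mem_range] at hi hj
        exact hlab.inj i hi j hj hij
      have hlt : (U \ C).card < n := by
        rw [← hn]
        apply Finset.card_lt_card
        rw [Finset.ssubset_iff_of_subset Finset.sdiff_subset]
        exact ⟨u, hu, fun h => (Finset.mem_sdiff.1 h).2 huC⟩
      obtain ⟨S, hS3, hSsum, hSZ⟩ := ih (U \ C).card hlt (U \ C) rfl (by
        intro a ha b hab
        rw [Finset.mem_sdiff] at ha ⊢
        refine ⟨hU a ha.1 b hab, fun hb => ha.2 ?_⟩
        rw [hreach] at hb ⊢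
        exact hb.trans hab.symm.reachable)
      refine ⟨l ::ₘ S, ?_, ?_, ?_⟩
      · intro s hs
        rw [Multiset.mem_cons] at hs
        rcases hs with rfl | hs
        · exact hlab.three
        · exact hS3 s hs
      · rw [Multiset.sum_cons, hSsum, ← hCcard, Finset.card_sdiff_of_subset hCU]
        have := Finset.card_le_card hCU
        omega
      · rw [PL_cons, ← hSZ, ← Z_cycle G hlab, ← hC]
        conv_lhs => rw [hUC]
        apply Z_union G C.card C (U \ C) rfl Finset.disjoint_sdiff
        intro a ha b hb hab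
        rw [Finset.mem_sdiff] at hb
        apply hb.2
        rw [hreach] at ha ⊢
        exact ha.trans hab.reachable

end Pool.Agent.Lib.MP_99e3ed_co.H54
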