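import Mathlib

/-!
# Likelihood ratio order of polynomials

`LR s a b` : for all `i ≤ j`, `a (j + s) * b i ≤ a (i + s) * b j`, i.e. the coefficients of
`a` divided by those of `X^s b` are non-increasing.
-/

set_option autoImplicit false

open Finset Polynomial

namespace Pool.Agent.Lib.MP_99e3ed_co.H54

/-- Non-negative coefficients and positive constant coefficient. -/
structure Pos (a : ℤ[X]) : Prop where
  nonneg : ∀ i, 0 ≤ a.coeff i
  pos : 0 < a.coeff 0

/-- Likelihood ratio order, with a shift. -/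
def LR (s : ℕ) (a b : ℤ[X]) : Prop :=
  ∀ i j, i ≤ j → a.coeff (j + s) * b.coeff i ≤ a.coeff (i + s) * b.coeff j

/-- Strong log-concavity. -/
def SLC (a : ℤ[X]) : Prop := LR 1 a a

lemma LR.refl (a : ℤ[X]) : LR 0 a a := by
  intro i j _
  simp only [add_zero]
  rw [mul_comm]

lemma LR.trans {s t : ℕ} {a b c : ℤ[X]} (ha : Pos a) (hb : Pos b) (hc : Pos c)
    (h1 : LR s a b) (h2 : LR t b c) : LR (s + t) a c := by
  intro i j hij
  have e1 := h1 (i + t) (j + t) (by omega)
  have e2 := h2 i j hij
  have z1 := h1 0 (j + t) (by omega)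
  have z2 := h1 0 (i + t) (by omega)
  rw [show j + (s + t) = j + t + s by ring, show i + (s + t) = i + t + s by ring]
  have p0 := hb.pos
  have pi := hb.nonneg (i + t)
  have pj := hb.nonneg (j + t)
  have ai := ha.nonneg (i + t + s)
  have aj := ha.nonneg (j + t + s)
  have ci := hc.nonneg i
  have cj := hc.nonneg j
  have as := ha.nonneg (0 + s)
  rcases eq_or_lt_of_le pj with hj0 | hj0
  · rw [← hj0, mul_zero] at z1
    have : a.coeff (j + t + s) = 0 := by
      by_contra hne
      have h3 : 0 < a.coeff (j + t + s) := lt_of_le_of_ne aj (Ne.symm hne)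
      have := mul_pos h3 p0
      linarith
    rw [this, zero_mul]
    positivity
  · rcases eq_or_lt_of_le pi with hi0 | hi0
    · have h3 : c.coeff i = 0 := by
        rw [← hi0, zero_mul] at e2
        by_contra hne
        have h3 : 0 < c.coeff i := lt_of_le_of_ne ci (Ne.symm hne)
        have := mul_pos hj0 h3
        linarith
      rw [h3, mul_zero]
      positivity
    · have h3 : (a.coeff (j + t + s) * c.coeff i) * (b.coeff (i + t) * b.coeff (j + t)) ≤
          (a.coeff (i + t + s) * c.coeff j) * (b.coeff (i + t) * b.coeff (j + t)) := by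
        calc (a.coeff (j + t + s) * c.coeff i) * (b.coeff (i + t) * b.coeff (j + t))
            = (a.coeff (j + t + s) * b.coeff (i + t)) * (b.coeff (j + t) * c.coeff i) := by ring
          _ ≤ (a.coeff (i + t + s) * b.coeff (j + t)) * (b.coeff (i + t) * c.coeff j) :=
              mul_le_mul e1 e2 (by positivity) (by positivity)
          _ = _ := by ring
      exact le_of_mul_le_mul_right h3 (by positivity)

lemma Pos.mul {a b : ℤ[X]} (ha : Pos a) (hb : Pos b) : Pos (a * b) := by
  refine ⟨fun i => ?_, ?_⟩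
  · rw [coeff_mul]
    exact Finset.sum_nonneg fun p _ => mul_nonneg (ha.nonneg _) (hb.nonneg _)
  · rw [mul_coeff_zero]
    exact mul_pos ha.pos hb.pos

lemma Pos.one : Pos (1 : ℤ[X]) := by
  refine ⟨fun i => ?_, by simp⟩
  rw [coeff_one]
  split_ifs <;> norm_num

/-- The Toeplitz kernel of `c`. -/
noncomputable def ker (c : ℤ[X]) (p i : ℕ) : ℤ := if p ≤ i then c.coeff (i - p) else 0

lemma ker_nonneg {c : ℤ[X]} (hc : Pos c) (p i : ℕ) : 0 ≤ ker c p i := by
  unfold ker
  split_ifs
  · exact hc.nonneg _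
  · exact le_rfl

lemma coeff_mul_ker (a c : ℤ[X]) (i N : ℕ) (hN : i ≤ N) :
    (a * c).coeff i = ∑ p ∈ range (N + 1), a.coeff p * ker c p i := by
  rw [coeff_mul, Finset.Nat.sum_antidiagonal_eq_sum_range_succ_mk]
  have h1 : ∑ p ∈ range (N + 1), a.coeff p * ker c p i =
      ∑ p ∈ range (i + 1), a.coeff p * ker c p i := by
    symm
    apply Finset.sum_subset
    · intro x hx
      rw [Finset.mem_range] at hx ⊢
      omega
    · intro x _ hx
      rw [Finset.mem_range] at hx
      have : ¬ x ≤ i := by omega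
      simp [ker, this]
  rw [h1]
  refine Finset.sum_congr rfl fun p hp => ?_
  rw [Finset.mem_range] at hp
  have : p ≤ i := by omega
  simp [ker, this]

lemma slc_shift {c : ℤ[X]} (h : SLC c) (s : ℕ) : ∀ i j, i ≤ j →
    c.coeff i * c.coeff (j + s) ≤ c.coeff (i + s) * c.coeff j := by
  induction s with
  | zero => intro i j _; simp
  | succ s ih =>
    intro i j hij
    rcases Nat.lt_or_ge i j with hlt | hge
    · have e1 := ih (i + 1) j (by omega)
      have e2 := h i (j + s) (by omega)
      calc c.coeff i * c.coeff (j + (s + 1)) = c.coeff (j + s + 1) * c.coeff i := by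
            rw [mul_comm]; rfl
        _ ≤ c.coeff (i + 1) * c.coeff (j + s) := e2
        _ ≤ c.coeff (i + 1 + s) * c.coeff j := e1
        _ = c.coeff (i + (s + 1)) * c.coeff j := by rw [show i + 1 + s = i + (s + 1) by ring]
    · have : i = j := by omega
      subst this
      rw [mul_comm]

/-- The kernel of a strongly log-concave polynomial is totally positive of order two. -/
lemma ker_tp2 {c : ℤ[X]} (hc : Pos c) (h : SLC c) {p q i j : ℕ} (hpq : p ≤ q) (hij : i ≤ j) :
    ker c p j * ker c q i ≤ ker c p i * ker c q j := by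
  by_cases hqi : q ≤ i
  · have h1 : p ≤ j := by omega
    have h2 : p ≤ i := by omega
    have h3 : q ≤ j := by omega
    simp only [ker, hqi, h1, h2, h3, if_true]
    have := slc_shift h (q - p) (i - q) (j - q) (by omega)
    rw [show j - q + (q - p) = j - p by omega, show i - q + (q - p) = i - p by omega] at this
    linarith
  · have : ker c q i = 0 := by simp [ker, hqi]
    rw [this, mul_zero]
    exact mul_nonneg (ker_nonneg hc _ _) (ker_nonneg hc _ _)

/-- The likelihood ratio order is preserved by multiplication with a strongly log-concave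
polynomial. -/
lemma LR.mul_right {a b c : ℤ[X]} (hc : Pos c) (hs : SLC c) (h : LR 0 a b) :
    LR 0 (a * c) (b * c) := by
  intro i j hij
  simp only [add_zero]
  rw [coeff_mul_ker a c j j le_rfl, coeff_mul_ker b c i j hij, coeff_mul_ker a c i j hij,
    coeff_mul_ker b c j j le_rfl]
  rw [← sub_nonneg]
  set R := range (j + 1)
  have e1 : (∑ p ∈ R, a.coeff p * ker c p i) * (∑ q ∈ R, b.coeff q * ker c q j) -
      (∑ p ∈ R, a.coeff p * ker c p j) * (∑ q ∈ R, b.coeff q * ker c q i) =
      ∑ p ∈ R, ∑ q ∈ R, a.coeff p * b.coeff q *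
        (ker c p i * ker c q j - ker c p j * ker c q i) := by
    rw [Finset.sum_mul_sum, Finset.sum_mul_sum, ← Finset.sum_sub_distrib]
    refine Finset.sum_congr rfl fun p _ => ?_
    rw [← Finset.sum_sub_distrib]
    refine Finset.sum_congr rfl fun q _ => ?_
    ring
  have e2 : ∑ p ∈ R, ∑ q ∈ R, a.coeff p * b.coeff q *
        (ker c p i * ker c q j - ker c p j * ker c q i) =
      ∑ p ∈ R, ∑ q ∈ R, a.coeff q * b.coeff p *
        (ker c q i * ker c p j - ker c q j * ker c p i) := Finset.sum_comm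
  have e3 : 0 ≤ ∑ p ∈ R, ∑ q ∈ R, (a.coeff p * b.coeff q - a.coeff q * b.coeff p) *
      (ker c p i * ker c q j - ker c p j * ker c q i) := by
    refine Finset.sum_nonneg fun p _ => Finset.sum_nonneg fun q _ => ?_
    rcases le_total p q with hpq | hpq
    · have h1 := h p q hpq
      have h2 := ker_tp2 hc hs hpq hij
      simp only [add_zero] at h1
      apply mul_nonneg <;> linarith
    · have h1 := h q p hpq
      have h2 := ker_tp2 hc hs hpq hij
      simp only [add_zero] at h1
      apply mul_nonneg_of_nonpos_of_nonpos <;> linarith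
  have e4 : ∑ p ∈ R, ∑ q ∈ R, (a.coeff p * b.coeff q - a.coeff q * b.coeff p) *
      (ker c p i * ker c q j - ker c p j * ker c q i) =
      (∑ p ∈ R, ∑ q ∈ R, a.coeff p * b.coeff q *
        (ker c p i * ker c q j - ker c p j * ker c q i)) +
      ∑ p ∈ R, ∑ q ∈ R, a.coeff q * b.coeff p *
        (ker c q i * ker c p j - ker c q j * ker c p i) := by
    rw [← Finset.sum_add_distrib]
    refine Finset.sum_congr rfl fun p _ => ?_
    rw [← Finset.sum_add_distrib]
    refine Finset.sum_congr rfl fun q _ => ?_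
    ring
  linarith

lemma SLC.one : SLC (1 : ℤ[X]) := by
  intro i j _
  rw [coeff_one, coeff_one, coeff_one, coeff_one]
  simp

lemma LR.zero_of_shift {s : ℕ} {a b : ℤ[X]} (ha : Pos a) (hb : Pos b) (h : LR s a b) :
    LR 0 a (X ^ s * b) := by
  intro i j hij
  simp only [add_zero]
  rw [coeff_X_pow_mul', coeff_X_pow_mul']
  by_cases hi : s ≤ i
  · have hj : s ≤ j := by omega
    rw [if_pos hi, if_pos hj]
    have := h (i - s) (j - s) (by omega)
    rwa [show j - s + s = j by omega, show i - s + s = i by omega] at this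
  · rw [if_neg hi, mul_zero]
    apply mul_nonneg (ha.nonneg _)
    split_ifs
    · exact hb.nonneg _
    · exact le_rfl

lemma LR.shift_of_zero {s : ℕ} {a b : ℤ[X]} (h : LR 0 a (X ^ s * b)) : LR s a b := by
  intro i j hij
  have := h (i + s) (j + s) (by omega)
  simp only [add_zero] at this
  rw [coeff_X_pow_mul', coeff_X_pow_mul', if_pos (by omega), if_pos (by omega)] at this
  simpa using this

lemma LR.add_left {s : ℕ} {a b c : ℤ[X]} (h1 : LR s a c) (h2 : LR s b c) : LR s (a + b) c := by
  intro i j hij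
  have e1 := h1 i j hij
  have e2 := h2 i j hij
  rw [coeff_add, coeff_add, add_mul, add_mul]
  linarith

lemma LR.add_right {s : ℕ} {a b c : ℤ[X]} (h1 : LR s a b) (h2 : LR s a c) : LR s a (b + c) := by
  intro i j hij
  have e1 := h1 i j hij
  have e2 := h2 i j hij
  rw [coeff_add, coeff_add, mul_add, mul_add]
  linarith

/-- Products of strongly log-concave polynomials are strongly log-concave. -/
lemma SLC.mul {a b : ℤ[X]} (ha : Pos a) (hb : Pos b) (h1 : SLC a) (h2 : SLC b) :
    SLC (a * b) := by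
  have e := (LR.zero_of_shift ha ha h1).mul_right hb h2
  rw [mul_assoc] at e
  exact e.shift_of_zero

/-- The Lucas-type polynomials: for `n ≥ 3`, `Lu n` is the independence polynomial of the
cycle of length `n`. -/
noncomputable def Lu : ℕ → ℤ[X]
  | 0 => 2
  | 1 => 1
  | (n + 2) => Lu (n + 1) + X * Lu n

lemma Lu_add_two (n : ℕ) : Lu (n + 2) = Lu (n + 1) + X * Lu n := by
  rw [Lu]

lemma LR_X_left {s : ℕ} {b c : ℤ[X]} (h : LR s b c) : LR (s + 1) (X * b) c := by
  intro i j hij
  have := h i j hij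
  rw [show j + (s + 1) = (j + s) + 1 by ring, show i + (s + 1) = (i + s) + 1 by ring,
    coeff_X_mul, coeff_X_mul]
  exact this

lemma LR_X_right {s : ℕ} {a b : ℤ[X]} (ha : Pos a) (hb : Pos b) (h : LR (s + 1) a b) :
    LR s a (X * b) := by
  intro i j hij
  rcases i with _ | i
  · rw [coeff_X_mul_zero, mul_zero]
    apply mul_nonneg (ha.nonneg _)
    rcases j with _ | j
    · rw [coeff_X_mul_zero]
    · rw [coeff_X_mul]; exact hb.nonneg _
  · obtain ⟨j, rfl⟩ : ∃ j', j = j' + 1 := ⟨j - 1, by omega⟩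
    rw [coeff_X_mul, coeff_X_mul]
    have := h i j (by omega)
    rw [show j + 1 + s = j + (s + 1) by ring, show i + 1 + s = i + (s + 1) by ring]
    exact this

lemma Pos.X_mul_add {a b : ℤ[X]} (ha : Pos a) (hb : Pos b) : Pos (a + X * b) := by
  refine ⟨fun i => ?_, ?_⟩
  · rw [coeff_add]
    apply add_nonneg (ha.nonneg _)
    rcases i with _ | i
    · rw [coeff_X_mul_zero]
    · rw [coeff_X_mul]; exact hb.nonneg _
  · rw [coeff_add, coeff_X_mul_zero, add_zero]
    exact ha.pos

lemma LR_const (s : ℕ) (c d : ℤ) : LR s (C c) (C d) := by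
  intro i j hij
  rw [coeff_C, coeff_C, coeff_C, coeff_C]
  split_ifs <;> omega

/-- The chain of inequalities between the Lucas-type polynomials. -/
lemma Lu_chain (n : ℕ) : Pos (Lu n) ∧ Pos (Lu (n + 1)) ∧ SLC (Lu n) ∧ SLC (Lu (n + 1)) ∧
    LR 0 (Lu n) (Lu (n + 1)) ∧ LR 1 (Lu (n + 1)) (Lu n) := by
  induction n with
  | zero =>
    have h0 : Lu 0 = C 2 := by rw [Lu]; rfl
    have h1 : Lu 1 = C 1 := by rw [Lu]; rfl
    simp only [zero_add]
    rw [h0, h1]
    have hp : ∀ c : ℤ, 0 < c → Pos (C c) := by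
      intro c hc
      refine ⟨fun i => ?_, by simpa using hc⟩
      rw [coeff_C]
      split_ifs
      · exact hc.le
      · exact le_rfl
    refine ⟨hp 2 (by norm_num), hp 1 (by norm_num), ?_, ?_, ?_, ?_⟩
    · exact LR_const _ _ _
    · exact LR_const _ _ _
    · exact LR_const _ _ _
    · exact LR_const _ _ _
  | succ n ih =>
    obtain ⟨hB, hA, sB, sA, hBA, hAB⟩ := ih
    rw [show n + 1 + 1 = n + 2 by ring, Lu_add_two]
    refine ⟨hA, Pos.X_mul_add hA hB, sA, ?_, ?_, ?_⟩
    · -- strong log-concavity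
      have h1 : LR 1 (Lu (n + 1)) (X * Lu n) := LR_X_right hA hB (LR.trans hA hA hB sA hAB)
      have h2 : LR 1 (X * Lu n) (Lu (n + 1)) := LR_X_left hBA
      have h3 : LR 1 (X * Lu n) (X * Lu n) := by
        intro i j hij
        rw [coeff_X_mul, coeff_X_mul]
        rcases i with _ | i
        · rw [coeff_X_mul_zero, mul_zero]
          apply mul_nonneg (hB.nonneg _)
          rcases j with _ | j
          · rw [coeff_X_mul_zero]
          · rw [coeff_X_mul]; exact hB.nonneg _
        · obtain ⟨j, rfl⟩ : ∃ j', j = j' + 1 := ⟨j - 1, by omega⟩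
          rw [coeff_X_mul, coeff_X_mul]
          exact sB i j (by omega)
      exact LR.add_left (LR.add_right sA h1) (LR.add_right h2 h3)
    · exact LR.add_right (LR.refl _) (LR_X_right hA hB hAB)
    · exact LR.add_left sA (LR_X_left hBA)

lemma Lu_pos (n : ℕ) : Pos (Lu n) := (Lu_chain n).1

lemma Lu_slc (n : ℕ) : SLC (Lu n) := (Lu_chain n).2.2.1

lemma Lu_shift_two (n : ℕ) : LR 1 (Lu (n + 2)) (Lu n) := by
  rw [Lu_add_two]
  exact LR.add_left (Lu_chain n).2.2.2.2.2 (LR_X_left (LR.refl _))

lemma Lu_mul_four (n : ℕ) : Lu 4 * Lu (n + 4) = Lu (n + 8) + X ^ 4 * Lu n := by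
  induction n using Nat.strong_induction_on with
  | _ n ih =>
    match n with
    | 0 => simp only [Lu]; ring
    | 1 => simp only [Lu]; ring
    | (n + 2) =>
      have h1 := ih n (by omega)
      have h2 := ih (n + 1) (by omega)
      rw [show n + 2 + 4 = (n + 4) + 2 by ring, Lu_add_two (n + 4),
        show n + 2 + 8 = (n + 8) + 2 by ring, Lu_add_two (n + 8), Lu_add_two n,
        show n + 4 + 1 = n + 1 + 4 by ring, show n + 8 + 1 = n + 1 + 8 by ring]
      linear_combination h2 + X * h1

seal Lu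

lemma Lu_shift_four (n : ℕ) : LR 2 (Lu (n + 4)) (Lu n) := by
  have h1 : LR 1 (Lu (n + 2)) (Lu n) := Lu_shift_two n
  have h2 : LR 1 (Lu (n + 4)) (Lu (n + 2)) := Lu_shift_two (n + 2)
  have := LR.trans (Lu_pos (n + 4)) (Lu_pos (n + 2)) (Lu_pos n) h2 h1
  simpa using this

lemma Lu_shift_eight (n : ℕ) : LR 4 (Lu (n + 8)) (Lu n) := by
  have h1 : LR 2 (Lu (n + 4)) (Lu n) := Lu_shift_four n
  have h2 : LR 2 (Lu (n + 8)) (Lu (n + 4)) := Lu_shift_four (n + 4)
  have := LR.trans (Lu_pos (n + 8)) (Lu_pos (n + 4)) (Lu_pos n) h2 h1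
  simpa using this

/-- Splitting off a four-cycle increases in the likelihood ratio order. -/
lemma Lu_split (n : ℕ) : LR 0 (Lu (n + 8)) (Lu 4 * Lu (n + 4)) := by
  rw [Lu_mul_four]
  exact LR.add_right (LR.refl _) (LR.zero_of_shift (Lu_pos _) (Lu_pos _) (Lu_shift_eight n))

end Pool.Agent.Lib.MP_99e3ed_co.H54
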