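import Pool.Agent.Lib.MP_99e3ed_co.H54.LR

/-!
# Reduction of a product of cycle polynomials to four-cycles
-/

set_option autoImplicit false

open Finset Polynomial

namespace Pool.Agent.Lib.MP_99e3ed_co.H54

/-- The polynomial with a given list of coefficients. -/
noncomputable def ofL : List ℤ → ℤ[X]
  | [] => 0
  | (a :: l) => C a + X * ofL l

lemma coeff_ofL (l : List ℤ) (i : ℕ) : (ofL l).coeff i = l.getD i 0 := by
  induction l generalizing i with
  | nil => simp [ofL]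
  | cons a l ih =>
    rw [ofL, coeff_add]
    rcases i with _ | i
    · simp
    · rw [coeff_X_mul, ih, coeff_C_succ]
      simp

lemma LR_ofL (l₁ l₂ : List ℤ) (h1 : ∀ i < l₁.length, 0 ≤ l₁.getD i 0)
    (h2 : ∀ i < l₂.length, 0 ≤ l₂.getD i 0)
    (h : ∀ j < l₁.length, ∀ i < l₁.length, i ≤ j →
      l₁.getD j 0 * l₂.getD i 0 ≤ l₁.getD i 0 * l₂.getD j 0) :
    LR 0 (ofL l₁) (ofL l₂) := by
  intro i j hij
  simp only [add_zero, coeff_ofL]
  have g1 : ∀ i, 0 ≤ l₁.getD i 0 := by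
    intro i
    rcases Nat.lt_or_ge i l₁.length with h | h
    · exact h1 i h
    · rw [List.getD_eq_default _ _ h]
  have g2 : ∀ i, 0 ≤ l₂.getD i 0 := by
    intro i
    rcases Nat.lt_or_ge i l₂.length with h | h
    · exact h2 i h
    · rw [List.getD_eq_default _ _ h]
  rcases Nat.lt_or_ge j l₁.length with hj | hj
  · exact h j hj i (by omega) hij
  · rw [List.getD_eq_default l₁ _ hj, zero_mul]
    exact mul_nonneg (g1 _) (g2 _)

lemma Lu2 : Lu 2 = 1 + 2 * X := by
  rw [Lu_add_two 0]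
  unfold Lu
  ring

lemma Lu3 : Lu 3 = 1 + 3 * X := by
  rw [Lu_add_two 1, Lu2]
  unfold Lu
  ring

lemma Lu4 : Lu 4 = 1 + 4 * X + 2 * X ^ 2 := by
  rw [Lu_add_two 2, Lu3, Lu2]
  ring

lemma Lu5 : Lu 5 = 1 + 5 * X + 5 * X ^ 2 := by
  rw [Lu_add_two 3, Lu4, Lu3]
  ring

lemma Lu6 : Lu 6 = 1 + 6 * X + 9 * X ^ 2 + 2 * X ^ 3 := by
  rw [Lu_add_two 4, Lu5, Lu4]
  ring

lemma Lu7 : Lu 7 = 1 + 7 * X + 14 * X ^ 2 + 7 * X ^ 3 := by
  rw [Lu_add_two 5, Lu6, Lu5]
  ring

lemma Lu8 : Lu 8 = 1 + 8 * X + 20 * X ^ 2 + 16 * X ^ 3 + 2 * X ^ 4 := by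
  rw [Lu_add_two 6, Lu7, Lu6]
  ring

lemma Lu9 : Lu 9 = 1 + 9 * X + 27 * X ^ 2 + 30 * X ^ 3 + 9 * X ^ 4 := by
  rw [Lu_add_two 7, Lu8, Lu7]
  ring

lemma Lu10 : Lu 10 = 1 + 10 * X + 35 * X ^ 2 + 50 * X ^ 3 + 25 * X ^ 4 + 2 * X ^ 5 := by
  rw [Lu_add_two 8, Lu9, Lu8]
  ring

/-- The product of the cycle polynomials. -/
noncomputable def PL (S : Multiset ℕ) : ℤ[X] := (S.map Lu).prod

lemma PL_zero : PL 0 = 1 := by simp [PL]

lemma PL_cons (a : ℕ) (S : Multiset ℕ) : PL (a ::ₘ S) = Lu a * PL S := by simp [PL]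

lemma PL_singleton (a : ℕ) : PL {a} = Lu a := by simp [PL]

lemma PL_add (S T : Multiset ℕ) : PL (S + T) = PL S * PL T := by simp [PL]

lemma PL_pos (S : Multiset ℕ) : Pos (PL S) := by
  induction S using Multiset.induction_on with
  | empty => rw [PL_zero]; exact Pos.one
  | cons a S ih => rw [PL_cons]; exact (Lu_pos a).mul ih

lemma PL_slc (S : Multiset ℕ) : SLC (PL S) := by
  induction S using Multiset.induction_on with
  | empty => rw [PL_zero]; exact SLC.one
  | cons a S ih => rw [PL_cons]; exact SLC.mul (Lu_pos a) (PL_pos S) (Lu_slc a) ih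

lemma Lu4_pow (m : ℕ) : Lu 4 ^ m = PL (Multiset.replicate m 4) := by
  simp [PL]

lemma pow_pos' (m : ℕ) : Pos (Lu 4 ^ m) := by rw [Lu4_pow]; exact PL_pos _

lemma pow_slc (m : ℕ) : SLC (Lu 4 ^ m) := by rw [Lu4_pow]; exact PL_slc _

lemma ck35 : LR 0 (Lu 3 * Lu 5) (Lu 4 ^ 2 * PL 0) := by
  have e1 : Lu 3 * Lu 5 = ofL [1, 8, 20, 15] := by
    simp only [ofL, Lu3, Lu5, map_ofNat, map_one]; ring
  have e2 : Lu 4 ^ 2 * PL 0 = ofL [1, 8, 20, 16, 4] := by
    simp only [ofL, Lu4, PL_zero, map_ofNat, map_one]; ring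
  rw [e1, e2]
  exact LR_ofL _ _ (by decide) (by decide) (by decide)

lemma ck36 : LR 0 (Lu 3 * Lu 6) (Lu 4 ^ 1 * PL {5}) := by
  have e1 : Lu 3 * Lu 6 = ofL [1, 9, 27, 29, 6] := by
    simp only [ofL, Lu3, Lu6, map_ofNat, map_one]; ring
  have e2 : Lu 4 ^ 1 * PL {5} = ofL [1, 9, 27, 30, 10] := by
    simp only [ofL, Lu4, Lu5, PL_singleton, map_ofNat, map_one]; ring
  rw [e1, e2]
  exact LR_ofL _ _ (by decide) (by decide) (by decide)

lemma ck37 : LR 0 (Lu 3 * Lu 7) (Lu 4 ^ 1 * PL {6}) := by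
  have e1 : Lu 3 * Lu 7 = ofL [1, 10, 35, 49, 21] := by
    simp only [ofL, Lu3, Lu7, map_ofNat, map_one]; ring
  have e2 : Lu 4 ^ 1 * PL {6} = ofL [1, 10, 35, 50, 26, 4] := by
    simp only [ofL, Lu4, Lu6, PL_singleton, map_ofNat, map_one]; ring
  rw [e1, e2]
  exact LR_ofL _ _ (by decide) (by decide) (by decide)

lemma ck55 : LR 0 (Lu 5 * Lu 5) (Lu 4 ^ 1 * PL {6}) := by
  have e1 : Lu 5 * Lu 5 = ofL [1, 10, 35, 50, 25] := by
    simp only [ofL, Lu5, map_ofNat, map_one]; ring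
  have e2 : Lu 4 ^ 1 * PL {6} = ofL [1, 10, 35, 50, 26, 4] := by
    simp only [ofL, Lu4, Lu6, PL_singleton, map_ofNat, map_one]; ring
  rw [e1, e2]
  exact LR_ofL _ _ (by decide) (by decide) (by decide)

lemma ck56 : LR 0 (Lu 5 * Lu 6) (Lu 4 ^ 1 * PL {7}) := by
  have e1 : Lu 5 * Lu 6 = ofL [1, 11, 44, 77, 55, 10] := by
    simp only [ofL, Lu5, Lu6, map_ofNat, map_one]; ring
  have e2 : Lu 4 ^ 1 * PL {7} = ofL [1, 11, 44, 77, 56, 14] := by
    simp only [ofL, Lu4, Lu7, PL_singleton, map_ofNat, map_one]; ring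
  rw [e1, e2]
  exact LR_ofL _ _ (by decide) (by decide) (by decide)

lemma ck57 : LR 0 (Lu 5 * Lu 7) (Lu 4 ^ 1 * PL {8}) := by
  have e1 : Lu 5 * Lu 7 = ofL [1, 12, 54, 112, 105, 35] := by
    simp only [ofL, Lu5, Lu7, map_ofNat, map_one]; ring
  have e2 : Lu 4 ^ 1 * PL {8} = ofL [1, 12, 54, 112, 106, 40, 4] := by
    simp only [ofL, Lu4, Lu8, PL_singleton, map_ofNat, map_one]; ring
  rw [e1, e2]
  exact LR_ofL _ _ (by decide) (by decide) (by decide)

lemma ck66 : LR 0 (Lu 6 * Lu 6) (Lu 4 ^ 3 * PL 0) := by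
  have e1 : Lu 6 * Lu 6 = ofL [1, 12, 54, 112, 105, 36, 4] := by
    simp only [ofL, Lu6, map_ofNat, map_one]; ring
  have e2 : Lu 4 ^ 3 * PL 0 = ofL [1, 12, 54, 112, 108, 48, 8] := by
    simp only [ofL, Lu4, PL_zero, map_ofNat, map_one]; ring
  rw [e1, e2]
  exact LR_ofL _ _ (by decide) (by decide) (by decide)

lemma ck67 : LR 0 (Lu 6 * Lu 7) (Lu 4 ^ 2 * PL {5}) := by
  have e1 : Lu 6 * Lu 7 = ofL [1, 13, 65, 156, 182, 91, 14] := by
    simp only [ofL, Lu6, Lu7, map_ofNat, map_one]; ring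
  have e2 : Lu 4 ^ 2 * PL {5} = ofL [1, 13, 65, 156, 184, 100, 20] := by
    simp only [ofL, Lu4, Lu5, PL_singleton, map_ofNat, map_one]; ring
  rw [e1, e2]
  exact LR_ofL _ _ (by decide) (by decide) (by decide)

lemma ck77 : LR 0 (Lu 7 * Lu 7) (Lu 4 ^ 1 * PL {10}) := by
  have e1 : Lu 7 * Lu 7 = ofL [1, 14, 77, 210, 294, 196, 49] := by
    simp only [ofL, Lu7, map_ofNat, map_one]; ring
  have e2 : Lu 4 ^ 1 * PL {10} = ofL [1, 14, 77, 210, 295, 202, 58, 4] := by
    simp only [ofL, Lu4, Lu10, PL_singleton, map_ofNat, map_one]; ring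
  rw [e1, e2]
  exact LR_ofL _ _ (by decide) (by decide) (by decide)

lemma ck3333 : LR 0 (PL (Multiset.replicate 4 3)) (Lu 4 ^ 3 * PL 0) := by
  have e1 : PL (Multiset.replicate 4 3) = ofL [1, 12, 54, 108, 81] := by
    simp only [PL, Multiset.map_replicate, Multiset.prod_replicate, ofL, Lu3, map_ofNat, map_one]
    ring
  have e2 : Lu 4 ^ 3 * PL 0 = ofL [1, 12, 54, 112, 108, 48, 8] := by
    simp only [ofL, Lu4, PL_zero, map_ofNat, map_one]; ring
  rw [e1, e2]
  exact LR_ofL _ _ (by decide) (by decide) (by decide)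

lemma pair_step (x y : ℕ) (hx : x = 5 ∨ x = 6 ∨ x = 7) (hy : y = 3 ∨ y = 5 ∨ y = 6 ∨ y = 7) :
    ∃ (a : ℕ) (R' : Multiset ℕ), 1 ≤ a ∧ (∀ s ∈ R', 3 ≤ s) ∧ x + y = 4 * a + R'.sum ∧
      LR 0 (Lu x * Lu y) (Lu 4 ^ a * PL R') := by
  rcases hx with rfl | rfl | rfl <;> rcases hy with rfl | rfl | rfl | rfl
  · exact ⟨2, 0, by norm_num, by simp, by simp, by rw [mul_comm (Lu 5)]; exact ck35⟩
  · exact ⟨1, {6}, by norm_num, by simp, by simp, ck55⟩
  · exact ⟨1, {7}, by norm_num, by simp, by simp, ck56⟩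
  · exact ⟨1, {8}, by norm_num, by simp, by simp, ck57⟩
  · exact ⟨1, {5}, by norm_num, by simp, by simp, by rw [mul_comm (Lu 6)]; exact ck36⟩
  · exact ⟨1, {7}, by norm_num, by simp, by simp, by rw [mul_comm (Lu 6)]; exact ck56⟩
  · exact ⟨3, 0, by norm_num, by simp, by simp, ck66⟩
  · exact ⟨2, {5}, by norm_num, by simp, by simp, ck67⟩
  · exact ⟨1, {6}, by norm_num, by simp, by simp, by rw [mul_comm (Lu 7)]; exact ck37⟩
  · exact ⟨1, {8}, by norm_num, by simp, by simp, by rw [mul_comm (Lu 7)]; exact ck57⟩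
  · exact ⟨2, {5}, by norm_num, by simp, by simp, by rw [mul_comm (Lu 7)]; exact ck67⟩
  · exact ⟨1, {10}, by norm_num, by simp, by simp, ck77⟩

/-- **The reduction.** Among the disjoint unions of cycles with `4 m` vertices the union of `m`
four-cycles is the largest in the likelihood ratio order. -/
theorem reduce (m : ℕ) : ∀ S : Multiset ℕ, (∀ s ∈ S, 3 ≤ s) → S.sum = 4 * m →
    LR 0 (PL S) (Lu 4 ^ m) := by
  induction m using Nat.strong_induction_on with
  | _ m ih =>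
    intro S hS hsum
    -- one step
    have step : ∀ (R T R' : Multiset ℕ) (a : ℕ), S = R + T → 1 ≤ a → (∀ s ∈ R', 3 ≤ s) →
        R.sum = 4 * a + R'.sum → LR 0 (PL R) (Lu 4 ^ a * PL R') → LR 0 (PL S) (Lu 4 ^ m) := by
      intro R T R' a hST ha hR' hRsum hLR
      have hsum' : R.sum + T.sum = 4 * m := by rw [← hsum, hST, Multiset.sum_add]
      have ham : a ≤ m := by omega
      have hIH := ih (m - a) (by omega) (R' + T)
        (by
          intro s hs
          rw [Multiset.mem_add] at hs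
          rcases hs with hs | hs
          · exact hR' s hs
          · apply hS
            rw [hST, Multiset.mem_add]
            exact Or.inr hs)
        (by rw [Multiset.sum_add]; omega)
      have h1 : LR 0 (PL R * PL T) (Lu 4 ^ a * PL R' * PL T) := hLR.mul_right (PL_pos T) (PL_slc T)
      have h2 : LR 0 (PL (R' + T) * Lu 4 ^ a) (Lu 4 ^ (m - a) * Lu 4 ^ a) :=
        hIH.mul_right (pow_pos' a) (pow_slc a)
      have e1 : Lu 4 ^ a * PL R' * PL T = PL (R' + T) * Lu 4 ^ a := by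
        rw [PL_add]; ring
      have e2 : Lu 4 ^ (m - a) * Lu 4 ^ a = Lu 4 ^ m := by
        rw [← pow_add]; congr 1; omega
      rw [e1] at h1
      rw [e2] at h2
      rw [hST, PL_add]
      have := LR.trans ((PL_pos R).mul (PL_pos T)) ((PL_pos (R' + T)).mul (pow_pos' a))
        (pow_pos' m) h1 h2
      simpa using this
    by_cases h4 : 4 ∈ S
    · obtain ⟨T, hT⟩ := Multiset.exists_cons_of_mem h4
      refine step {4} T 0 1 (by rw [hT, Multiset.singleton_add]) le_rfl (by simp) (by simp) ?_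
      rw [PL_singleton, PL_zero, pow_one, mul_one]
      exact LR.refl _
    by_cases h8 : ∃ s ∈ S, 8 ≤ s
    · obtain ⟨s, hs, hs8⟩ := h8
      obtain ⟨T, hT⟩ := Multiset.exists_cons_of_mem hs
      refine step {s} T {s - 4} 1 (by rw [hT, Multiset.singleton_add]) le_rfl ?_ ?_ ?_
      · intro x hx
        rw [Multiset.mem_singleton] at hx
        omega
      · simp only [Multiset.sum_singleton]; omega
      · rw [PL_singleton, PL_singleton, pow_one]
        have := Lu_split (s - 8)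
        rwa [show s - 8 + 8 = s by omega, show s - 8 + 4 = s - 4 by omega] at this
    push Not at h8
    have hmem : ∀ s ∈ S, s = 3 ∨ s = 5 ∨ s = 6 ∨ s = 7 := by
      intro s hs
      have h1 := hS s hs
      have h2 := h8 s hs
      have h3 : s ≠ 4 := by rintro rfl; exact h4 hs
      omega
    by_cases hx : ∃ x ∈ S, x ≠ 3
    · obtain ⟨x, hxS, hx3⟩ := hx
      have hx' : x = 5 ∨ x = 6 ∨ x = 7 := by
        have := hmem x hxS
        tauto
      obtain ⟨T, hT⟩ := Multiset.exists_cons_of_mem hxS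
      rcases Multiset.empty_or_exists_mem T with hT0 | ⟨y, hy⟩
      · exfalso
        rw [hT, hT0] at hsum
        simp only [Multiset.cons_zero, Multiset.sum_singleton] at hsum
        omega
      · obtain ⟨U, hU⟩ := Multiset.exists_cons_of_mem hy
        have hyS : y ∈ S := by rw [hT]; exact Multiset.mem_cons_of_mem hy
        obtain ⟨a, R', ha, hR', hsum', hLR⟩ := pair_step x y hx' (hmem y hyS)
        refine step {x, y} U R' a ?_ ha hR' ?_ ?_
        · rw [hT, hU]
          simp [Multiset.insert_eq_cons, Multiset.cons_add]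
        · simpa [Multiset.insert_eq_cons] using hsum'
        · rw [Multiset.insert_eq_cons, PL_cons, PL_singleton]
          exact hLR
    · push Not at hx
      have hrep : S = Multiset.replicate S.card 3 := Multiset.eq_replicate_card.mpr hx
      have hcard : S.card * 3 = 4 * m := by
        rw [← hsum]
        conv_rhs => rw [hrep]
        simp
      rcases Nat.eq_zero_or_pos S.card with h0 | h0
      · have hS0 : S = 0 := Multiset.card_eq_zero.mp h0
        have hm : m = 0 := by omega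
        rw [hS0, hm, PL_zero, pow_zero]
        exact LR.refl _
      · have h5 : 4 ≤ S.card := by omega
        refine step (Multiset.replicate 4 3) (Multiset.replicate (S.card - 4) 3) 0 3 ?_ (by norm_num)
          (by simp) (by simp) ck3333
        rw [← Multiset.replicate_add]
        conv_lhs => rw [hrep]
        congr 1
        omega

end Pool.Agent.Lib.MP_99e3ed_co.H54
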